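import Pool.Agent.H852.J.N3
import Pool.Agent.H852.J.P5
import Pool.Agent.H852.J.Q7
import Pool.Agent.H852.J.S4

/-!
# The Tate conjecture at every prime for hyperelliptic Jacobians: a criterion with one-nodal reductions, without any
# hypothesis on the Galois group, and a theorem for 100 percent of the tuples of hyperelliptic curves of any degrees, with
# one exceptional set for all number fields and all motives

## The criterion

Let `K` be a number field and `f i`, `i = 0, ..., n - 1`, monic polynomials of odd degree `≥ 3` over the ring of
integers, with the curves `C i : y ^ 2 = f i (x)`, of genus `(deg (f i) - 1) / 2`. Let `NodePlaces (f i)` be the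
set of all places `v` of `K`, not above two, such that `f i` has modulo `v` exactly one multiple root, a double
root, and the valuation at `v` of the discriminant of `f i` is not divisible by four (`OneNode`).

A set `T` of places is sufficient for `f` (`Enough`) if it is not empty and

(a) the graph on the roots of `f`, whose edges are the pairs of roots which are congruent modulo some maximal
ideal above one of the places in `T` of the ring of all algebraic integers, is connected (`Linked`), or

(b) the Galois group acts primitively on the roots of `f` (there are no nontrivial blocks), or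

(c) `f` is irreducible and the degree is a prime number.

**Theorem 1.** Let `Z` be ANY pure motive over `K`, for instance `H ^ w` of any smooth projective variety, with a lattice
`τ` over `ℤ_2`. Suppose that

* for all `j < i` the places `v` in `NodePlaces (f i)` such that `f j` is separable modulo `v` are sufficient
  for `f i`;
* for all `i` the places `v` in `NodePlaces (f i)` such that `Z` is unramified modulo four at `v` are
  sufficient for `f i` (for `Z` a point: the set `NodePlaces (f i)` is sufficient for `f i`).

Then `EveryPrime` is true for the `C i` and `Z`: for EVERY prime number `ℓ` all Tate classes on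
`∏ J(C i) ^ (m i) × Z`, in all degrees, are linear combinations of products of Tate classes of degree two on the
abelian variety (algebraic by Faltings) and Tate classes of `Z`. So the Tate conjecture for all these products is
EQUIVALENT to the Tate conjecture for `Z`, and true for all the products `∏ J(C i) ^ (m i)`.

There is no hypothesis on the size of the Galois groups of the polynomials `f i` or on the endomorphisms of the
Jacobians: in (c) the Galois group can be cyclic or dihedral, in (a) all roots can be in `K`, so that the
Galois group acts trivially on the points of order two. (The theorem of Hall on curves with one-nodal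
reduction assumes that the Jacobian has no endomorphisms besides `ℤ`, which was known for large Galois
groups, by Zarhin.) The hypothesis on several curves is about the pairs of curves; a place can be bad
for many of them.

## 100 percent of the curves

Let `n i ≥ 3`, `i = 0, ..., r - 1`, be any degrees, odd or even. An integral vector `a`, with the coordinates
`a (i, k)`, `k ≤ n i`, gives `r` polynomials `f i = ∑ a (i, k) x ^ k` (`polynomial`) and `r` hyperelliptic curves
`C i : y ^ 2 = f i (x)` over `ℚ`. For `n i` even these are ALL hyperelliptic curves of genus `(n i - 2) / 2`, in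
general without any rational branch point; the genera of the curves can be equal or different.

**Theorem 2.** There is a set `E` of integral vectors, of density zero (`AlmostAll`, ordered by the maximum of the
absolute values of the coordinates) such that for EVERY number field `K` and every `N ≥ 1` all `a` outside of
`E`, with only finitely many exceptions, have the following property (`Property`). Let `L` be the field which is
generated over `K` by one root `α i` of `f i` for each `i` with `n i` even (`L = K` if all `n i` are odd). Let `Z` be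
ANY pure motive over `L` with a lattice over `ℤ_2` which is unramified modulo four at all places of `L` not above
the prime divisors of `N` (`UnramifiedOutside`). Then `EveryPrime` is true for the `C i` and `Z`, as in Theorem 1.

The set `E` depends only on the degrees `n i`, and the finite set of exceptions on `K` and `N`, not on `Z` or `ℓ`.
Every lattice is unramified modulo four outside of the prime divisors of some `N`. So for every number field `K` and
every `Z` over `K` (all `n i` odd) the conclusion is true for all but finitely many `a` outside of `E`. (Some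
exceptions are necessary, because `Z` can be a motive of one of the curves.)

**The models.** The definition `EveryPrime` is for the curves `y ^ 2 = g (x)` with a monic polynomial `g` of odd
degree (the groups of points of the Jacobians are the class groups of the rings `F[x, y]`). The curve `C i` in
Theorem 2 has such a model `g = model i` over `L`:

* (`n` odd) `monicModel a = c ^ (n - 1) f (X / c)`, where `c = a_n`: by `monicModel_eval` the substitution is
  `X = c x`, `Y = c ^ ((n - 1) / 2) y`;
* (`n` even) `oddModel f α = U ^ n f (α + δ / U) / δ ^ 2`, where `δ = f' (α)`, monic of degree `n - 1`: by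
  `oddModel_eval` the substitution is `x = α + δ / U`, `y = δ W / U ^ (n / 2)`, which moves the branch point `α` to
  infinity.

The definitions `EveryPrime` and `IsLattice` are those of the module
`Pool.Graph.R_pool_sql_team_seeded_63374d34.Results.MP_640417_ag.HyperellipticEveryPrime`: the data of `EveryPrime`
are the Frobenius polynomials `P v` of the action on the 2-adic Tate modules of the Jacobians and `Q v` of `Z`, pure
of weights `1` and `w`, outside of a finite set of places, and the conclusion concerns, for all `ℓ`, all the
representations over `ℚ_ℓ` with the properties of `V_ℓ` of the abelian variety (Weil pairing, semisimplicity,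
Frobenius polynomials `P v`) and all `ℓ`-adic realizations of `Z` (Frobenius polynomials `Q v`).

## Ideas of the proofs

*Theorem 1.* Let `M` be a large finite Galois extension of `K` and `P` a place of `M` above a place `v` in
`NodePlaces (f i)`. If the inertia group acts nontrivially on the roots of `f i` (valuation of the discriminant
odd), an inert element exchanges the two congruent roots `a`, `b`; if it acts trivially, `a - b` has odd
valuation. In both cases the parity of the valuation extends to a character of the multiplicative group of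
`M`, and the automorphism over `M` with these signs on the square roots acts modulo four on the 2-adic Tate
module as a square root of a transvection, by the explicit formulas for the halves of the points of order
two. The Lie algebra generated by the conjugates over a connected graph of pairs is the whole symplectic Lie
algebra modulo two, and the automorphisms are trivial modulo four on the curve `j` or on `Z`. This gives all
tangent vectors of the symplectic group of the curve `i` with component zero on the curve `j`, or on `Z`;
brackets combine the conditions for different `j` and `Z` (`Pool.Agent.H852.J.join_sp`), and a triangular induction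
gives the product of the Lie algebras with component zero on `Z`. The passage from `2` to all prime numbers `ℓ`
is the one of helper197.

*Theorem 2.* Let `F i` be the monic polynomial with the roots `c r`. (1) Modulo `p` the probability that `F j` is an
irreducible polynomial times `κ j` different linear factors, for all `j` simultaneously, is at least `C > 0`. Such
factorizations at prime numbers with a place of degree one of `K`, for all `κ` with `κ j + 2 ≤ n j`, give the
JOINT transitivity of the Galois group over `K` on the systems of `κ j` (for one `j`: `κ j + 1`) different roots of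
`F j` (`Pool.Agent.H852.J.jt_step`). (2) Modulo `p ^ 2` the probability that `F i` has exactly one double root, with
the valuation one of the discriminant, and that the other `F j` are irreducible modulo `p`, is at least `C / p`, and
`∏ (1 - C / p) = 0`. (3) Among the places of `L` above `p` there is one, `w`, at which `α i` is not congruent to the
double root, and it is unramified over `K` (`placeP_multi`). So the model `i` has exactly one node at `w`, and the
models `j ≠ i` have good reduction; by (1) the stabilizer of all the `α j` is doubly transitive on the other roots of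
`f i`, and the criterion (`Pool.Agent.H852.J.master2`, in terms of places) applies over `L`, for all `Z` which are
unramified modulo four at `w` at once. (4) The conditions in (1) and (2) are countably many, for all `K` (subfields of
one algebraic closure) and `N`, and each of them holds for 100 percent of the `a`; a diagonal argument gives one set
`E` (`Pool.Agent.H852.J.diag`).
-/

set_option autoImplicit false

namespace Pool.Agent.Results.MP_938ce2_ag.NodeGraph

open Polynomial NumberField IsDedekindDomain
open Pool.Agent.Results.MP_640417_ag.HyperellipticEveryPrime (AbsoluteGaloisGroup IsLattice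
  EveryPrime)

variable {K : Type} [Field K] [NumberField K]

/-- The polynomial `f` has modulo `v` exactly one multiple root, a double root, and the valuation of the
discriminant at `v` is not divisible by four. -/
def OneNode (f : (𝓞 K)[X]) (v : HeightOneSpectrum (𝓞 K)) : Prop :=
  (∃ (a : 𝓞 K ⧸ v.asIdeal) (h : (𝓞 K ⧸ v.asIdeal)[X]),
    f.map (Ideal.Quotient.mk v.asIdeal) = (X - C a) ^ 2 * h ∧ ((X - C a) * h).Separable) ∧
  ∃ m : ℕ, ¬ 4 ∣ m ∧ v.intValuation f.discr = WithZero.exp (-(m : ℤ))

/-- The elements `a` and `b` are algebraic integers, congruent modulo some maximal ideal above `v` of the ring of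
all algebraic integers. -/
def Congruent (v : HeightOneSpectrum (𝓞 K)) (a b : AlgebraicClosure K) : Prop :=
  ∃ (x y : 𝓞 (AlgebraicClosure K)) (Q : Ideal (𝓞 (AlgebraicClosure K))), Q.IsMaximal ∧
    Q.comap (algebraMap (𝓞 K) (𝓞 (AlgebraicClosure K))) = v.asIdeal ∧
    (x : AlgebraicClosure K) = a ∧ (y : AlgebraicClosure K) = b ∧ x - y ∈ Q

/-- The places, not above two, at which `f` has exactly one double root. -/
def NodePlaces (f : (𝓞 K)[X]) : Set (HeightOneSpectrum (𝓞 K)) :=
  {v | (2 : 𝓞 K) ∉ v.asIdeal ∧ OneNode f v}

/-- The graph on the roots of `f`, with an edge between two roots if they are congruent modulo a maximal ideal above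
one of the places in `T`, is connected. -/
def Linked (f : K[X]) (T : Set (HeightOneSpectrum (𝓞 K))) : Prop :=
  ∀ x y : f.rootSet (AlgebraicClosure K),
    Relation.ReflTransGen (fun a b : f.rootSet (AlgebraicClosure K) =>
      ∃ v : T, Congruent v (a : AlgebraicClosure K) b) x y

/-- The Galois group acts primitively on the roots of `f`: transitively, and without nontrivial blocks. -/
def Primitive (f : K[X]) : Prop :=
  MulAction.IsPreprimitive (AlgebraicClosure K ≃ₐ[K] AlgebraicClosure K)
    (f.rootSet (AlgebraicClosure K))

/-- The set `T` of places is sufficient for `f`: it is not empty, and the graph of the congruences modulo these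
places is connected, or the Galois group is primitive, or `f` is irreducible of prime degree. -/
def Enough (f : (𝓞 K)[X]) (T : Set (HeightOneSpectrum (𝓞 K))) : Prop :=
  T.Nonempty ∧ (Linked (f.map (algebraMap (𝓞 K) K)) T ∨
    Primitive (f.map (algebraMap (𝓞 K) K)) ∨
    (Irreducible (f.map (algebraMap (𝓞 K) K)) ∧ f.natDegree.Prime))

/-- the matrix `τ g` is congruent to `1` modulo four -/
def TrivialModFour {d : ℕ} (τ : AbsoluteGaloisGroup K →* Matrix (Fin d) (Fin d) ℚ_[2])
    (g : AbsoluteGaloisGroup K) : Prop :=
  ∀ a b, ‖(τ g - 1) a b‖ < 1 / 2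

/-- The lattice of `Z` is unramified at the place `v`, modulo four: there is a finite Galois extension `N` of
`K`, unramified at `v`, such that the Galois group over `N` acts trivially modulo four. -/
def Unramified {d : ℕ} (τ : AbsoluteGaloisGroup K →* Matrix (Fin d) (Fin d) ℚ_[2])
    (v : HeightOneSpectrum (𝓞 K)) : Prop :=
  ∃ (N : IntermediateField K (AlgebraicClosure K)) (_ : NumberField N), Normal K N ∧
    v.asIdeal.ramificationIdxIn (𝓞 N) = 1 ∧
    ∀ g : AbsoluteGaloisGroup K, (∀ x : N, g x = x) → TrivialModFour τ g

/-- The polynomial `∑ a i X ^ i`. -/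
noncomputable def polynomial (K : Type) [Field K] {n : ℕ} (a : Fin (n + 1) → ℤ) : K[X] :=
  ∑ i : Fin (n + 1), C ((a i : ℤ) : K) * X ^ (i : ℕ)

/-- The monic polynomial `c ^ (n - 1) f (X / c)`, where `f` is the polynomial with the coefficients `a` and
`c = a n` is the leading coefficient. -/
noncomputable def monicModel (K : Type) [Field K] {n : ℕ} (a : Fin (n + 1) → ℤ) : K[X] :=
  X ^ n + ∑ i : Fin n,
    C ((a i.castSucc : K) * (a (Fin.last n) : K) ^ (n - 1 - (i : ℕ))) * X ^ (i : ℕ)

/-- For a root `α` of the polynomial `f` of degree `n`, the polynomial `U ^ n f (α + δ / U) / δ ^ 2`, where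
`δ = f' (α)`: the coefficient of `U ^ (n - k)` is `c_k δ ^ k / δ ^ 2`, where `c_k` is the coefficient of `T ^ k` in
`f (α + T)`. -/
noncomputable def oddModel {L : Type} [Field L] (f : L[X]) (α : L) : L[X] :=
  ∑ k ∈ Finset.range (f.natDegree + 1),
    C ((taylor α f).coeff k * f.derivative.eval α ^ k / f.derivative.eval α ^ 2) *
      X ^ (f.natDegree - k)

/-- The lattice of `Z` is unramified modulo four at all places which do not divide `N`. -/
def UnramifiedOutside {K : Type} [Field K] [NumberField K] (N : ℕ) {d : ℕ}
    (τ : AbsoluteGaloisGroup K →* Matrix (Fin d) (Fin d) ℚ_[2]) : Prop :=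
  ∀ v : HeightOneSpectrum (𝓞 K), (N : 𝓞 K) ∉ v.asIdeal → Unramified τ v

/-- The property `P` holds for 100 percent of the integral vectors, ordered by height: for every `ε > 0` the
number of the vectors `a` with coordinates of absolute value at most `H` for which `P` is false is at
most `ε (2 H + 1) ^ k` for all large `H`, where `k` is the number of the coordinates. -/
def AlmostAll {κ : Type} [Fintype κ] (P : (κ → ℤ) → Prop) : Prop :=
  ∀ ε : ℝ, 0 < ε → ∃ H₀ : ℕ, ∀ H : ℕ, H₀ ≤ H →
    ({a : κ → ℤ | (∀ k, |a k| ≤ H) ∧ ¬ P a}.ncard : ℝ) ≤ ε * (2 * H + 1) ^ Fintype.card κ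

/-- The model of the curve `y ^ 2 = f i (x)`, where `f i` has the coefficients `a (i, k)`: the monic model for
`n i` odd, the model for the root `α i` for `n i` even. -/
noncomputable def model {L : Type} [Field L] {r : ℕ} {n : Fin r → ℕ}
    (a : (Σ i : Fin r, Fin (n i + 1)) → ℤ) (α : Fin r → L) (i : Fin r) : L[X] :=
  if Even (n i) then oddModel (polynomial L fun k => a ⟨i, k⟩) (α i)
  else monicModel L fun k => a ⟨i, k⟩

/-- The statement for the curves `y ^ 2 = f i (x)` over the field generated over `K` by roots `α i` of the
polynomials of even degree, and for all motives which are unramified modulo four outside of `N`. -/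
def Property (K : Type) [Field K] [NumberField K] (N : ℕ) {r : ℕ} {n : Fin r → ℕ}
    (a : (Σ i : Fin r, Fin (n i + 1)) → ℤ) : Prop :=
  ∀ (L : Type) [Field L] [NumberField L] [Algebra K L] (α : Fin r → L),
    (∀ i, Even (n i) → (polynomial L fun k => a ⟨i, k⟩).eval (α i) = 0) →
    IntermediateField.adjoin K {x | ∃ i, Even (n i) ∧ α i = x} = ⊤ →
    ∀ (d : ℕ) (τ : AbsoluteGaloisGroup L →* Matrix (Fin d) (Fin d) ℚ_[2]),
      IsLattice τ → UnramifiedOutside N τ → EveryPrime (model a α) τ

/-- `c ^ (n - 1) f (x)` is the value of the monic model at `c x`. -/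
theorem monicModel_eval {K : Type} [Field K] {n : ℕ} (hn : 0 < n) (a : Fin (n + 1) → ℤ) (x : K) :
    (monicModel K a).eval ((a (Fin.last n) : K) * x) =
      (a (Fin.last n) : K) ^ (n - 1) * (polynomial K a).eval x := by
  have h1 := congrArg (Polynomial.eval x) (Pool.Agent.H852.J.mkP_comp hn fun i => ((a i : ℤ) : K))
  rw [eval_comp, eval_mul, eval_mul, eval_C, eval_C, eval_X] at h1
  exact h1

/-- `U ^ n f (α + δ / U)` is `δ ^ 2` times the value of the odd model at `U`. -/
theorem oddModel_eval {L : Type} [Field L] {f : L[X]} {α : L} (hδ : f.derivative.eval α ≠ 0)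
    {U : L} (hU : U ≠ 0) : (oddModel f α).eval U * f.derivative.eval α ^ 2 =
      U ^ f.natDegree * f.eval (α + f.derivative.eval α / U) :=
  Pool.Agent.H852.J.oddM_sub (F := L) hδ hU

/-- The odd model is monic of degree `n - 1`, and separable. -/
theorem oddModel_monic {L : Type} [Field L] {f : L[X]} (hf : f.Separable) {α : L}
    (hα : f.eval α = 0) {m : ℕ} (hn : f.natDegree = m + 1) :
    (oddModel f α).Monic ∧ (oddModel f α).natDegree = m ∧ (oddModel f α).Separable := by
  have hδ : f.derivative.eval α ≠ 0 := by
    have h1 := hf.aeval_derivative_ne_zero (x := α) (by rwa [coe_aeval_eq_eval])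
    rwa [coe_aeval_eq_eval] at h1
  obtain ⟨h1, h2⟩ := Pool.Agent.H852.J.oddM_monic hα hδ hn
  exact ⟨h1, h2, Pool.Agent.H852.J.oddM_sep hf.ne_zero hf hα hn⟩

/-- every lattice is unramified modulo four outside of some integer -/
theorem exists_unramifiedOutside {K : Type} [Field K] [NumberField K] {d : ℕ}
    (τ : AbsoluteGaloisGroup K →* Matrix (Fin d) (Fin d) ℚ_[2]) (hτ : IsLattice τ) :
    ∃ N : ℕ, 1 ≤ N ∧ UnramifiedOutside N τ := by
  classical
  have hfin := Pool.Agent.H852.J.unramified_finite τ hτ
  refine ⟨∏ v ∈ hfin.toFinset, Ideal.absNorm v.asIdeal, ?_, fun v hv => ?_⟩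
  · refine Nat.one_le_iff_ne_zero.2 (Finset.prod_ne_zero_iff.2 fun v _ h => ?_)
    exact v.ne_bot (Ideal.absNorm_eq_zero_iff.1 h)
  · by_contra hun
    apply hv
    have h1 : v ∈ hfin.toFinset := by
      rw [Set.Finite.mem_toFinset]
      exact fun h => hun h
    obtain ⟨m, hm⟩ := Finset.dvd_prod_of_mem (fun v : HeightOneSpectrum (𝓞 K) =>
      Ideal.absNorm v.asIdeal) h1
    rw [hm, Nat.cast_mul]
    exact v.asIdeal.mul_mem_right _ (Ideal.absNorm_mem v.asIdeal)

theorem connects {f : (𝓞 K)[X]} (hm : f.Monic) (h3 : 3 ≤ f.natDegree)
    {T : Set (HeightOneSpectrum (𝓞 K))} (hT : T ⊆ NodePlaces f) (h : Enough f T) :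
    Pool.Agent.H852.J.Connects (κ := T) (f.map (algebraMap (𝓞 K) K))
      (fun v => Pool.Agent.H852.J.CongrAt v) := by
  have hd : 0 < f.natDegree := by omega
  have hn : ∀ v : T, Pool.Agent.H852.J.OneNode f v := fun v =>
    ⟨(hT v.2).2.1, (hT v.2).2.2⟩
  obtain ⟨⟨v₀, hv₀⟩, h⟩ := h
  have hne : Nonempty T := ⟨⟨v₀, hv₀⟩⟩
  rcases h with h | h | h
  · exact Pool.Agent.H852.J.connects_of_linked hm hd hn h
  · exact Pool.Agent.H852.J.connects_of_primitive _ h _
  · refine Pool.Agent.H852.J.connects_of_primitive _
      (Pool.Agent.H852.J.primitive_of_prime _ h.1 ?_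
        (Pool.Agent.H852.J.sep_of_disc hm hd (Pool.Agent.H852.J.disc_ne (hn ⟨v₀, hv₀⟩)))) _
    rw [hm.natDegree_map]
    exact h.2

/-- **The Tate conjecture at every prime number for products of hyperelliptic Jacobians with one-nodal reductions
and any motive.** -/
theorem criterion {n : ℕ} [NeZero n] (f : Fin n → (𝓞 K)[X]) (hm : ∀ i, (f i).Monic)
    (hodd : ∀ i, Odd (f i).natDegree) (h3 : ∀ i, 3 ≤ (f i).natDegree)
    (hpair : ∀ i j, j < i →
      Enough (f i) {v ∈ NodePlaces (f i) | ((f j).map (Ideal.Quotient.mk v.asIdeal)).Separable}) :
    ((∀ i, Enough (f i) (NodePlaces (f i))) →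
      EveryPrime (fun i => (f i).map (algebraMap (𝓞 K) K))
        (1 : AbsoluteGaloisGroup K →* Matrix (Fin 1) (Fin 1) ℚ_[2])) ∧
    ∀ (d : ℕ) (τ : AbsoluteGaloisGroup K →* Matrix (Fin d) (Fin d) ℚ_[2]), IsLattice τ →
      (∀ i, Enough (f i) {v ∈ NodePlaces (f i) | Unramified τ v}) →
      EveryPrime (fun i => (f i).map (algebraMap (𝓞 K) K)) τ := by
  have hd : ∀ i, 0 < (f i).natDegree := fun i => by have := h3 i; omega
  have key : ∀ (d : ℕ) (τ : AbsoluteGaloisGroup K →* Matrix (Fin d) (Fin d) ℚ_[2]), IsLattice τ →
      (∀ i, Enough (f i) {v ∈ NodePlaces (f i) | Unramified τ v}) →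
      EveryPrime (fun i => (f i).map (algebraMap (𝓞 K) K)) τ := by
    intro d τ hτ hun
    have hf : ∀ i, Pool.Agent.N171.HypP ((f i).map (algebraMap (𝓞 K) K)) := by
      intro i
      obtain ⟨⟨v, hv⟩, -⟩ := hun i
      exact Pool.Agent.H852.J.hypP_of (hm i) (hodd i) (hd i)
        (Pool.Agent.H852.J.disc_ne (v := v) ⟨hv.1.2.1, hv.1.2.2⟩)
    refine Pool.Agent.H852.J.master2 (fun i => (f i).map (algebraMap (𝓞 K) K)) hf
      (fun i => ?_) (fun i : Fin n => (i : ℕ)) Fin.val_injective
      (fun i => NodePlaces (f i)) (fun _ v => Pool.Agent.H852.J.CongrAt v)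
      (fun i v hv => hv.1)
      (fun i v hv => Pool.Agent.H852.J.node_of (hm i) (hd i) hv.1 ⟨hv.2.1, hv.2.2⟩)
      (fun i j hij => ⟨_, fun v hv => hv.1, fun v hv => ?_,
        connects (hm i) (h3 i) (fun v hv => hv.1) (hpair i j hij)⟩) τ hτ
      (fun i => ⟨_, fun v hv => hv.1, fun v hv => hv.2,
        connects (hm i) (h3 i) (fun v hv => hv.1) (hun i)⟩)
    · rw [(hm i).natDegree_map]
      exact h3 i
    · exact Pool.Agent.H852.J.good_of_sep (hm j) hv.2
  refine ⟨fun h => key 1 1 (Pool.Agent.H852.J.isLattice_one 1) fun i => ?_, key⟩
  have h1 : {v ∈ NodePlaces (f i) |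
      Unramified (1 : AbsoluteGaloisGroup K →* Matrix (Fin 1) (Fin 1) ℚ_[2]) v} =
      NodePlaces (f i) := by
    ext v
    exact ⟨fun h => h.1, fun h => ⟨h, Pool.Agent.H852.J.unramified_one 1 v⟩⟩
  rw [h1]
  exact h i

/-- The theorem for 100 percent of the tuples. -/
theorem density {r : ℕ} [NeZero r] (n : Fin r → ℕ) (hn : ∀ i, 3 ≤ n i) :
    ∃ E : Set ((Σ i : Fin r, Fin (n i + 1)) → ℤ), AlmostAll (fun a => a ∉ E) ∧
      (∀ (K : Type) [Field K] [NumberField K] (N : ℕ), 1 ≤ N →
        {a : (Σ i : Fin r, Fin (n i + 1)) → ℤ | a ∉ E ∧ ¬ Property K N a}.Finite) ∧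
      ((∀ i, Odd (n i)) → ∀ (K : Type) [Field K] [NumberField K] (d : ℕ)
        (τ : AbsoluteGaloisGroup K →* Matrix (Fin d) (Fin d) ℚ_[2]), IsLattice τ →
        {a : (Σ i : Fin r, Fin (n i + 1)) → ℤ |
          a ∉ E ∧ ¬ EveryPrime (fun i => monicModel K fun k => a ⟨i, k⟩) τ}.Finite) := by
  obtain ⟨E, hE, hE'⟩ := Pool.Agent.H852.J.tuples_all hn
  have key : ∀ (K : Type) [Field K] [NumberField K] (N : ℕ), 1 ≤ N →
        {a : (Σ i : Fin r, Fin (n i + 1)) → ℤ | a ∉ E ∧ ¬ Property K N a}.Finite := by
    intro K _ _ N hN
    refine (hE' K N hN).subset ?_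
    rintro a ⟨ha, hna⟩
    refine ⟨ha, fun h => hna ?_⟩
    intro L _ _ _ α hα htop d τ hτ hun
    have hpol : ∀ i, Pool.Agent.H852.J.mapQ L
        (Pool.Agent.H852.J.polyA (Pool.Agent.H852.J.cmpA a i)) = polynomial L fun k => a ⟨i, k⟩ :=
      fun i => Pool.Agent.H852.J.polyA_map (Int.castRingHom L) _
    have hmod : ∀ i, Pool.Agent.H852.J.mapQ L
        (Pool.Agent.H852.J.mkP (Pool.Agent.H852.J.monA (Pool.Agent.H852.J.cmpA a i))) =
          monicModel L fun k => a ⟨i, k⟩ := fun i => Pool.Agent.H852.J.monA_cast _
    have hne : Nonempty (Fin r) := ⟨0⟩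
    have h1 := Pool.Agent.H852.J.tuple_main (fun i : Fin r => (i : ℕ)) Fin.val_injective (K := K)
      hn a h.1 h.2 α (fun i he => by
        have h2 := hα i he
        rw [← hpol i, ← Pool.Agent.H852.J.evZ_eq_eval] at h2
        exact h2) htop τ hτ hun
    have h2 : (fun i => if Even (n i) then
        Pool.Agent.H852.J.oddM (Pool.Agent.H852.J.mapQ L
          (Pool.Agent.H852.J.polyA (Pool.Agent.H852.J.cmpA a i))) (α i)
        else Pool.Agent.H852.J.mapQ L
          (Pool.Agent.H852.J.mkP (Pool.Agent.H852.J.monA (Pool.Agent.H852.J.cmpA a i)))) =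
        model a α := by
      funext i
      rw [hpol, hmod]
      rfl
    rw [h2] at h1
    exact h1
  refine ⟨E, fun ε hε => ?_, key, fun hodd K _ _ d τ hτ => ?_⟩
  · obtain ⟨H₀, h⟩ := hE.ncard hε
    refine ⟨H₀, fun H hH => le_trans (le_of_eq ?_) (h H hH)⟩
    congr 2
    ext a
    simp only [not_not]
  · obtain ⟨N, hN, hun⟩ := exists_unramifiedOutside τ hτ
    refine (key K N hN).subset ?_
    rintro a ⟨ha, hna⟩
    refine ⟨ha, fun h => hna ?_⟩
    have h1 := h K (fun _ => 0) (fun i he => absurd (hodd i) (Nat.not_odd_iff_even.2 he))
      (by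
        rw [eq_top_iff]
        exact fun x _ => IntermediateField.algebraMap_mem _ x) d τ hτ hun
    have h2 : model a (fun _ => (0 : K)) = fun i => monicModel K fun k => a ⟨i, k⟩ := by
      funext i
      exact if_neg (Nat.not_even_iff_odd.2 (hodd i))
    rw [h2] at h1
    exact h1

/-- **The criterion, and 100 percent of the tuples of hyperelliptic curves.** -/
theorem result :
    (∀ (K : Type) [Field K] [NumberField K] (n : ℕ) [NeZero n] (f : Fin n → (𝓞 K)[X]),
      (∀ i, (f i).Monic) → (∀ i, Odd (f i).natDegree) → (∀ i, 3 ≤ (f i).natDegree) →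
      (∀ i j, j < i → Enough (f i)
        {v ∈ NodePlaces (f i) | ((f j).map (Ideal.Quotient.mk v.asIdeal)).Separable}) →
      ((∀ i, Enough (f i) (NodePlaces (f i))) →
        EveryPrime (fun i => (f i).map (algebraMap (𝓞 K) K))
          (1 : AbsoluteGaloisGroup K →* Matrix (Fin 1) (Fin 1) ℚ_[2])) ∧
      ∀ (d : ℕ) (τ : AbsoluteGaloisGroup K →* Matrix (Fin d) (Fin d) ℚ_[2]), IsLattice τ →
        (∀ i, Enough (f i) {v ∈ NodePlaces (f i) | Unramified τ v}) →
        EveryPrime (fun i => (f i).map (algebraMap (𝓞 K) K)) τ) ∧
    (∀ (r : ℕ) [NeZero r] (n : Fin r → ℕ), (∀ i, 3 ≤ n i) →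
      ∃ E : Set ((Σ i : Fin r, Fin (n i + 1)) → ℤ), AlmostAll (fun a => a ∉ E) ∧
        (∀ (K : Type) [Field K] [NumberField K] (N : ℕ), 1 ≤ N →
          {a : (Σ i : Fin r, Fin (n i + 1)) → ℤ | a ∉ E ∧ ¬ Property K N a}.Finite) ∧
        ((∀ i, Odd (n i)) → ∀ (K : Type) [Field K] [NumberField K] (d : ℕ)
          (τ : AbsoluteGaloisGroup K →* Matrix (Fin d) (Fin d) ℚ_[2]), IsLattice τ →
          {a : (Σ i : Fin r, Fin (n i + 1)) → ℤ |
            a ∉ E ∧ ¬ EveryPrime (fun i => monicModel K fun k => a ⟨i, k⟩) τ}.Finite)) :=
  ⟨fun _ _ _ _ _ f hm hodd h3 hpair => criterion f hm hodd h3 hpair, fun _ _ n hn => density n hn⟩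

end Pool.Agent.Results.MP_938ce2_ag.NodeGraph
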