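import Pool.Agent.H852.J.A6

/-!
# The Tate conjecture over the rational numbers for the Jacobians in the towers of the quadratic
# polynomials `x ^ 2 - s x + s`, in particular of Sylvester's polynomial `x ^ 2 - x + 1`

Let `s` be an integer which is equal to one, or with `|s| ≡ 3` modulo `4`, or with `|s| ≡ 6` modulo `8`, and

  `φ(x) = x ^ 2 - s x + s`,

with the critical point `s / 2` and the critical value `κ = s - s ^ 2 / 4`. For `s = 1` this is the polynomial
`x ^ 2 - x + 1` of Sylvester's sequence `2, 3, 7, 43, ...`, for which Odoni determined the Galois groups of all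
iterates (iterated wreath products of groups of order two). Let `φ^n` be the iterates and

  `D n : y ^ 2 = (x - κ) φ^n(x)`, `n ≥ 1`,

a curve of genus `2 ^ (n - 1)`. The hyperelliptic curve `y ^ 2 = φ^(N + 1)(x) = φ^N(φ(x))` has the additional
involution `x ↦ s - x`, with the quotients `y ^ 2 = φ^N(x)` and `D N`; so its Jacobian is isogenous to the product
of the Jacobians `J(D 1), ..., J(D N)`, all with multiplicity one.

**Theorem.** (1) For every finite set of levels `n ≥ 1` the property `EveryPrime` holds (with `Z` a point): for
EVERY prime number `ℓ` the Tate classes on all the products `∏ J(D n) ^ (m n)` are linear combinations of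
products of Tate classes of degree two, which are algebraic by Faltings. So the Tate conjecture, at every
`ℓ` and in all degrees, is true for all powers of the Jacobians of all curves `y ^ 2 = φ^N(x)`.

(2) Let `Z` be ANY pure motive over the rational numbers, for instance `H ^ w` of any smooth projective
variety, with a lattice `τ` over `ℤ_2` (`IsLattice`) which is ramified at finitely many places only. Then there is
a level `N` such that `EveryPrime` holds for `Z` and all finite sets of levels `n ≥ N`: for EVERY prime number
`ℓ` all Tate classes on `∏ J(D n) ^ (m n) × Z` are combinations of products of Tate classes of degree two on the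
abelian variety and Tate classes of `Z`. So the Tate conjecture for all these products is EQUIVALENT to
the Tate conjecture for `Z`.

There is no hypothesis on the curves. Their Galois groups are 2-groups: the action on the points of order
two of all the Jacobians together factors through a 2-group, so all the criteria which use large Galois groups
of the polynomials, or a large image modulo two, do not apply (already the absolute irreducibility of the
Jacobians was not known).

The definitions `EveryPrime` and `IsLattice` are those of the module
`Pool.Graph.R_pool_sql_team_seeded_63374d34.Results.MP_640417_ag.HyperellipticEveryPrime`. There is no exception in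
`EveryPrime` for `ℓ`; its data are the Frobenius polynomials `P v` of the action on the 2-adic Tate modules of the
Jacobians (the groups of points of the Jacobians are the class groups of the rings `F[x, y]`) and `Q v` of
`Z`, pure of weights `1` and `w`, outside of a finite set of places, and the conclusion concerns all the
representations `V` over `ℚ_ℓ` with the properties of `V_ℓ(A)` for the abelian variety `A` (Weil pairing,
semisimplicity, Frobenius polynomials `P v`) and all `ℓ`-adic realizations of `Z` (Frobenius polynomials `Q v`).

Idea of the proof. The numerators `w n` of `φ^n(s / 2)`, divided by that of `s / 2`, are odd and pairwise coprime,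
because `0 ↦ s ↦ s ↦ ...` under `φ`, and `|w n|` is not a square (modulo `4`; modulo `5` for `s = 1`). So for each
`n ≥ 1` there is an odd prime number `p` which divides `φ^n(κ)` to an odd power and none of the numbers `φ^j(κ)`,
`j < n`. At `p` the curves `D j`, `j < n`, have good reduction, and `D n` acquires exactly one node, where one
root of `φ^n` meets `κ`, with an ODD multiplicity. This gives an element of the Galois group which acts
modulo four as a square root of a transvection on `T_2 J(D n)`, trivially on the points of order four of the
other `J(D j)`, and trivially modulo four on `Z`. The Galois group is transitive on the roots of `φ^n`, so the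
conjugates give a star of transvections, whose squares generate the Lie algebra `sp` over `ℤ_2`, modulo two; a
triangular induction over the levels (`Pool.Agent.H852.J.tri`) shows that the image of Galois on the
product contains, infinitesimally, the product of the symplectic Lie algebras, with component zero on `Z`. The
passage from `2` to all prime numbers `ℓ` is the one of helper197 (relations between Frobenius eigenvalues
which hold for infinitely many places, `Pool.Agent.N197.AP.main20`).
-/

set_option autoImplicit false

namespace Pool.Agent.Results.MP_938ce2_ag.QuadraticTowers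

open Polynomial NumberField IsDedekindDomain
open Pool.Agent.Results.MP_640417_ag.HyperellipticEveryPrime (AbsoluteGaloisGroup IsLattice
  EveryPrime)

/-- The parameters: `s = 1`, or `|s| ≡ 3` modulo `4`, or `|s| ≡ 6` modulo `8`. -/
def Admissible (s : ℤ) : Prop := s = 1 ∨ |s| % 4 = 3 ∨ |s| % 8 = 6

/-- the `n`-th iterate of the polynomial `φ` -/
noncomputable def iterate (φ : ℚ[X]) : ℕ → ℚ[X]
  | 0 => X
  | n + 1 => (iterate φ n).comp φ

/-- The polynomial `(x - κ) φ^n(x)`, for `φ = x ^ 2 - s x + s` and the critical value `κ = s - s ^ 2 / 4` of `φ`. -/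
noncomputable def level (s : ℤ) (n : ℕ) : ℚ[X] :=
  (X - C ((s : ℚ) - (s : ℚ) ^ 2 / 4)) * iterate (X ^ 2 - C (s : ℚ) * X + C (s : ℚ)) n

/-- the matrix `τ g` is congruent to `1` modulo four -/
def TrivialModFour {d : ℕ} (τ : AbsoluteGaloisGroup ℚ →* Matrix (Fin d) (Fin d) ℚ_[2])
    (g : AbsoluteGaloisGroup ℚ) : Prop :=
  ∀ a b, ‖(τ g - 1) a b‖ < 1 / 2

/-- The lattice of `Z` is unramified at the place `v`, modulo four: there is a finite Galois extension `N` of the
rational numbers, unramified at `v`, such that the Galois group over `N` acts trivially modulo four. -/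
def Unramified {d : ℕ} (τ : AbsoluteGaloisGroup ℚ →* Matrix (Fin d) (Fin d) ℚ_[2])
    (v : HeightOneSpectrum (𝓞 ℚ)) : Prop :=
  ∃ (N : IntermediateField ℚ (AlgebraicClosure ℚ)) (_ : NumberField N), Normal ℚ N ∧
    v.asIdeal.ramificationIdxIn (𝓞 N) = 1 ∧
    ∀ g : AbsoluteGaloisGroup ℚ, (∀ x : N, g x = x) → TrivialModFour τ g

theorem iterate_eq (s : ℤ) (n : ℕ) : iterate (X ^ 2 - C (s : ℚ) * X + C (s : ℚ)) n =
    Pool.Agent.H852.J.iter ((s : ℚ) / 2) (s - s ^ 2 / 4) n := by
  induction n with
  | zero => rfl
  | succ n ih => rw [iterate, ih, Pool.Agent.H852.J.iter, Pool.Agent.H852.J.quad_adm]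

theorem level_eq (s : ℤ) (n : ℕ) :
    level s n = Pool.Agent.H852.J.level ((s : ℚ) / 2) (s - s ^ 2 / 4) n := by
  rw [level, iterate_eq, Pool.Agent.H852.J.level]

/-- **The Tate conjecture at every prime number for the towers of the polynomials `x ^ 2 - s x + s`.** -/
theorem result (s : ℤ) (hs : Admissible s) :
    (∀ S : Finset ℕ, S.Nonempty → (∀ n ∈ S, 1 ≤ n) →
      EveryPrime (fun n : S => level s n)
        (1 : AbsoluteGaloisGroup ℚ →* Matrix (Fin 1) (Fin 1) ℚ_[2])) ∧
    ∀ (d : ℕ) (τ : AbsoluteGaloisGroup ℚ →* Matrix (Fin d) (Fin d) ℚ_[2]), IsLattice τ →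
      {v : HeightOneSpectrum (𝓞 ℚ) | ¬ Unramified τ v}.Finite →
      ∃ N : ℕ, ∀ S : Finset ℕ, S.Nonempty → (∀ n ∈ S, N ≤ n) →
        EveryPrime (fun n : S => level s n) τ := by
  have hneg := Pool.Agent.H852.J.adm_neg (s := s) hs
  have hpl : ∀ n : ℕ, ∃ v : HeightOneSpectrum (𝓞 ℚ), 1 ≤ n →
      Pool.Agent.H852.J.CritPlace ((s : ℚ) / 2) (s - s ^ 2 / 4) n v := by
    intro n
    rcases Nat.eq_zero_or_pos n with rfl | hn
    · obtain ⟨v, -⟩ := Pool.Agent.H852.J.adm_places (s := s) hs 1 le_rfl
      exact ⟨v, fun h => absurd h (by norm_num)⟩
    · obtain ⟨v, hv⟩ := Pool.Agent.H852.J.adm_places (s := s) hs n hn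
      exact ⟨v, fun _ => hv⟩
  choose v hv using hpl
  have key : ∀ S : Finset ℕ, S.Nonempty → (∀ n ∈ S, 1 ≤ n) →
      ∀ (d : ℕ) (τ : AbsoluteGaloisGroup ℚ →* Matrix (Fin d) (Fin d) ℚ_[2]), IsLattice τ →
        (∀ n ∈ S, Pool.Agent.H852.J.Unramified τ (v n)) →
        EveryPrime (fun n : S => level s n) τ := by
    intro S hS hS1 d τ hτ hun
    have h1 := Pool.Agent.H852.J.tower_everyPrime hneg v hv S hS hS1 τ hτ hun
    have h2 : (fun n : S => level s n) =
        fun n : S => Pool.Agent.H852.J.level ((s : ℚ) / 2) (s - s ^ 2 / 4) n :=
      funext fun n => level_eq s n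
    rw [h2]
    exact h1
  refine ⟨fun S hS hS1 => key S hS hS1 1 1 (Pool.Agent.H852.J.isLattice_one 1)
    fun n _ => Pool.Agent.H852.J.unramified_one 1 (v n), fun d τ hτ hfin => ?_⟩
  -- only finitely many levels have a ramified place
  have hinj : Set.InjOn v (Set.Ici 1) := by
    intro m hm n hn hmn
    by_contra hne
    rcases lt_or_gt_of_ne hne with h | h
    · exact (hv m hm).ne h (hv n hn) hmn
    · exact (hv n hn).ne h (hv m hm) hmn.symm
  have hfin' : {n : ℕ | 1 ≤ n ∧ ¬ Unramified τ (v n)}.Finite := by
    refine Set.Finite.of_finite_image (f := v) (hfin.subset ?_) fun m hm n hn h =>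
      hinj hm.1 hn.1 h
    rintro _ ⟨n, hn, rfl⟩
    exact hn.2
  obtain ⟨N, hN⟩ := hfin'.bddAbove
  refine ⟨N + 1, fun S hS hS1 => key S hS (fun n hn => by have := hS1 n hn; omega) d τ hτ
    fun n hn => ?_⟩
  by_contra h
  have h1 : n ≤ N := hN ⟨by have := hS1 n hn; omega, h⟩
  have h2 := hS1 n hn
  omega

end Pool.Agent.Results.MP_938ce2_ag.QuadraticTowers
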