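import Pool.Agent.H853.CC.Dich
import Pool.Agent.H853.CC.Par
import Pool.Agent.H853.SR.Add

/-!
# The Tate conjecture for motives over `ℚ` whose Hodge cocharacter is regular and in general position

Let `M i` be finitely many pure motives over a number field or a finitely generated field `k` of
characteristic zero (for instance the cohomology groups of a smooth projective variety `Y`, or parts of
them), `ρ i` the action of the Galois group `Γ` of `k` on the `ℓ`-adic realization of `M i`, `V` the direct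
sum of the realizations, and `𝔤 ⊆ End V` the Lie algebra over `ℚ_ℓ` of the motivic Galois group `G` of the
direct sum over the algebraic closure.  The property `Motivic ρ 𝔤` (structure `IsMotivic`, from the
library) states what is used: `𝔤` is a Lie algebra, it respects the direct sum, it is reductive, it
consists of all endomorphisms which kill the tensors killed by `𝔤`, and these tensors (the classes of
cycles on the products and powers of `Y`) are Tate tensors.  The *Tate tensors* are all the tensors (in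
all tensor constructions from `V` and its dual space) which are fixed by a subgroup of finite index of
`Γ`; the conjecture of Tate is that they are the tensors killed by `𝔤`.  Let `𝔩` be the Lie algebra of all
endomorphisms of `V` which kill all Tate tensors.

Let `μ` be an element of `𝔩 ⊗ ℂ` (`ℂ` is an extension of `ℚ_ℓ` by the choice of an embedding; one can take
the completion of an algebraic closure of `ℚ_ℓ`), for instance the Hodge-Tate endomorphism of `V`: by the
theorem of Sen it is an element of `𝔩 ⊗ ℂ`, and it is a conjugate of the derivative of the Hodge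
cocharacter.  It is *strongly regular* for `𝔤` if on `𝔤 ⊗ ℂ` the eigenvalues of `[μ, ·]` which are
different from zero are simple, and the elements of the generalized eigenspace for the eigenvalue zero
commute with each other.  For the Hodge-Tate endomorphism this is a condition on the Hodge structure of
`𝔤`: `h^(p, -p) ≤ 1` for `p ≠ 0`, and the part of type `(0, 0)` is commutative, that is, the roots of `G`
take pairwise different values, different from zero, at the Hodge cocharacter.

Theorem.  (1) Let `k` be arbitrary, `V` semisimple, and let some element `μ` of `𝔩 ⊗ ℂ` be strongly regular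
for `𝔤`.  Every element of `𝔤` which commutes with the Tate endomorphisms (the endomorphisms of `V` which
commute with a subgroup of finite index of `Γ`) is the sum of an endomorphism in the centre of the Lie
algebra of all these elements, and of an endomorphism which kills all Tate tensors.  The Tate tensors are
those killed by `𝔤` if and only if the Tate endomorphisms commute with `𝔤` and the Tate tensors are killed
by the centre of `𝔤`.

(2) Let `k = ℚ`, or let `s` be the homomorphism given by a rational point at which the specialization has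
good reduction at three primes at least, and let `μ` be the Hodge-Tate endomorphism (of the
specialization) for some embedding.  Suppose that `μ` is in *general position* for `𝔤`: the nilradical of
every proper parabolic subalgebra of `𝔤` (over `ℚ_ℓ`) has a characteristic subspace on which `[μ, ·]` does
not have the trace zero.  Then `V` is semisimple.  If moreover `μ` is strongly regular, all the statements
of (1) are true.

So for motives over `ℚ` such that the Hodge cocharacter is outside of finitely many hyperplanes of the Lie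
algebra of a maximal torus of `G` (the kernels of the roots, of the differences of two roots, and of the
fundamental weights, say), the Tate conjecture in all codimensions for all powers, with the semisimplicity
of the Galois representations, is for EVERY prime `ℓ` a statement about endomorphisms, apart from the part
on the centre (which is empty for semisimple `G`).

Conditions on the Hodge numbers only: no Frobenius element is used, except that the Frobenius polynomials
at three primes are rational and pure in (2).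

In comparison: for the two conditions see `MP_8f1292_ag.HodgeCocharacter` (semisimplicity in general
position) and `MP_b8862a_ag.StronglyRegularFrobenius` (the Tate classes for a strongly regular Frobenius
element, given semisimplicity), whose methods are combined here; the new part is that an element of the
Lie algebra, in particular the Hodge-Tate endomorphism, can be used instead of a Frobenius element (file
`H853/SR/Add`).  The idea that a torus with different weights determines an irreducible Lie algebra is the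
torus trick of Gabber (in Katz, Exponential sums and differential equations), where `𝔤` is the Lie algebra
of all endomorphisms.

The proof of (1).  As `V` is semisimple, the trace form is nondegenerate on `𝔩` and on the centralizer `𝔤'`
of the Tate endomorphisms in `𝔤`.  Let `e` be an injective homomorphism from the additive to the
multiplicative group of `ℂ` (a positive real exponential) and let `g` be the automorphism of `V ⊗ ℂ` which
is the scalar `e β` on the generalized eigenspace of `μ` for `β`.  The Lie algebra of the torus generated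
by `g` consists of replicas of `μ`, which are in `𝔩 ⊗ ℂ` as `𝔩` is the Lie algebra of a tensor stabilizer.
The generalized eigenspaces of the conjugation by `g` are those of `[μ, ·]`.  So `𝔩 ⊗ ℂ` is stable under
the maximal torus of `𝔤' ⊗ ℂ` which centralizes `μ`, and `𝔤' = 𝔩 + ` centre by the lemma on subalgebras of
maximal rank with the same centralizer.
-/

set_option autoImplicit false

namespace Pool.Agent.Results.MP_938ce2_ag.RegularHodgeCocharacter

open NumberField IsDedekindDomain Module Polynomial TensorProduct Pool.Agent.Y114.TF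
  Pool.Agent.Y114.GF Pool.Agent.Y114.MU Pool.Agent.Y114.RM Pool.Agent.H204R3.GP
  Pool.Agent.NH34.BD Pool.Agent.H853.SR Pool.Agent.H853.CC Pool.Agent.Y212.RM

section lin

variable {k : Type} [Field k] {V : Type} [AddCommGroup V] [Module k V]

/-- `[μ, ·]` preserves `M`, with trace zero. -/
def TrZero (μ : End k V) (M : Submodule k (End k V)) : Prop :=
  ∃ h : ∀ X ∈ M, brk μ X ∈ M, LinearMap.trace k M ((brk μ).restrict h) = 0

/-- `X` is in the normalizer of `U` in `𝔤`: in `𝔤`, with `[X, U] ⊆ U`. -/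
def InNormalizer (𝔤 U : Submodule k (End k V)) (X : End k V) : Prop :=
  X ∈ 𝔤 ∧ ∀ Y ∈ U, X * Y - Y * X ∈ U

/-- `X` is orthogonal to the normalizer of `U` in `𝔤` for the trace form. -/
def OrthogonalToNormalizer (𝔤 U : Submodule k (End k V)) (X : End k V) : Prop :=
  ∀ Y, InNormalizer 𝔤 U Y → LinearMap.trace k V (X * Y) = 0

/-- `U` is a nonzero subspace of `𝔤`, and it consists of the elements of its normalizer in `𝔤` which
are orthogonal to the normalizer for the trace form.  (By the theorem of Borel and Tits, these are the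
nilradicals of the proper parabolic subalgebras of the reductive Lie algebra `𝔤`.) -/
def IsParabolicRadical (𝔤 U : Submodule k (End k V)) : Prop :=
  U ≠ ⊥ ∧ ∀ X, X ∈ U ↔ InNormalizer 𝔤 U X ∧ OrthogonalToNormalizer 𝔤 U X

/-- `g L g' ⊆ L`. -/
def Carries (g g' : End k V) (L : Submodule k (End k V)) : Prop := ∀ X ∈ L, AdE g g' X ∈ L

/-- The subspace `L` of `𝔤` is stable under the conjugations by all automorphisms of `V` which stabilize
`𝔤` and `U`. -/
def IsCharacteristic (𝔤 U L : Submodule k (End k V)) : Prop :=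
  (∀ X ∈ L, X ∈ 𝔤) ∧ ∀ g g' : End k V, g * g' = 1 → g' * g = 1 → Carries g g' 𝔤 →
    Carries g' g 𝔤 → Carries g g' U → Carries g' g U → Carries g g' L

variable {Γ : Type} [Group Γ] (ρ : Representation k Γ V)

/-- `X` commutes with all Tate endomorphisms: with all endomorphisms of `V` which commute with a
subgroup of finite index of `Γ`. -/
def CommutesWithTate (X : End k V) : Prop :=
  ∀ Y : End k V, (∃ Δ : Subgroup Γ, Δ.FiniteIndex ∧ ∀ γ ∈ Δ, Y * ρ γ = ρ γ * Y) → X * Y = Y * X

/-- `X` kills all Tate tensors. -/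
def KillsAll (X : End k V) : Prop :=
  ∀ (m : ℕ) (φ : Tensor k V m), TateTensor ρ φ → KillsTensor X φ

/-- Every `X ∈ 𝔤` which commutes with all Tate endomorphisms is, up to an endomorphism which kills all
Tate tensors, an element `Z` of `𝔤` with the same property which commutes with all elements of `𝔤`
with this property. -/
def IsGeneratedUpToCentre (𝔤 : Submodule k (End k V)) : Prop :=
  ∀ X ∈ 𝔤, CommutesWithTate ρ X → ∃ Z ∈ 𝔤, CommutesWithTate ρ Z ∧
    (∀ Y ∈ 𝔤, CommutesWithTate ρ Y → Z * Y = Y * Z) ∧ KillsAll ρ (X - Z)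

/-- All elements of `𝔤` commute with all Tate endomorphisms. -/
def AllCommute (𝔤 : Submodule k (End k V)) : Prop := ∀ X ∈ 𝔤, CommutesWithTate ρ X

/-- The elements of the centre of `𝔤` kill all Tate tensors. -/
def CentreKillsAll (𝔤 : Submodule k (End k V)) : Prop :=
  ∀ Z ∈ 𝔤, (∀ Y ∈ 𝔤, Z * Y = Y * Z) → KillsAll ρ Z

/-- The subspace `L` of `End V` is stable under the conjugations by the elements of `Γ`. -/
def IsStable (L : Submodule k (End k V)) : Prop := ∀ γ, Carries (ρ γ) (ρ γ⁻¹) L

/-- The determinant of `L` is a character of finite order of `Γ`. -/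
def DetFiniteOrder {L : Submodule k (End k V)} (hL : IsStable ρ L) : Prop :=
  ∃ m : ℕ, 0 < m ∧ ∀ γ, detOn L (AdE (ρ γ) (ρ γ⁻¹)) (hL γ) ^ m = 1

/-- `[μ, ·]` preserves `L ⊗ C`, with trace zero. -/
def HasTraceZero {C : Type} [Field C] [Algebra k C] (μ : End C (C ⊗[k] V))
    (L : Submodule k (End k V)) : Prop := TrZero μ (bcS C L)

/-- `μ` is in `𝔩 ⊗ C`, where `𝔩` is the space of all endomorphisms which kill all Tate tensors. -/
def IsInMonodromy {C : Type} [Field C] [Algebra k C] (μ : End C (C ⊗[k] V)) : Prop :=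
  ∃ 𝔩 : Submodule k (End k V), (∀ X, X ∈ 𝔩 ↔ KillsAll ρ X) ∧ μ ∈ bcS C 𝔩

/-- `μ` has the properties of the Hodge-Tate endomorphism (the operator of Sen): it is in `𝔩 ⊗ C`, and if
`L` is a stable space of endomorphisms of `V`, and the determinant of `L` is a character of finite order,
then `[μ, ·]` preserves `L ⊗ C`, with trace zero. -/
structure IsHodgeTate {C : Type} [Field C] [Algebra k C] (μ : End C (C ⊗[k] V)) : Prop where
  mem : IsInMonodromy ρ μ
  trace : ∀ (L : Submodule k (End k V)) (hL : IsStable ρ L), DetFiniteOrder ρ hL → HasTraceZero μ L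

/-- The generalized eigenspace in `𝔤 ⊗ ℂ`, for the eigenvalue `β`, of `[μ, ·]`. -/
noncomputable def rootSpace [Algebra k ℂ] (𝔤 : Submodule k (End k V)) (μ : End ℂ (ℂ ⊗[k] V)) (β : ℂ) :
    Submodule ℂ (End ℂ (ℂ ⊗[k] V)) :=
  bcS ℂ 𝔤 ⊓ (brk μ).maxGenEigenspace β

/-- `μ` is strongly regular for `𝔤`: the elements of `𝔤 ⊗ ℂ` in the generalized eigenspace of
`[μ, ·]` for the eigenvalue zero commute with each other, the other eigenvalues are simple. -/
structure IsStronglyRegular [Algebra k ℂ] (𝔤 : Submodule k (End k V)) (μ : End ℂ (ℂ ⊗[k] V)) :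
    Prop where
  torus : ∀ X ∈ rootSpace 𝔤 μ 0, ∀ Y ∈ rootSpace 𝔤 μ 0, X * Y = Y * X
  simple : ∀ β, β ≠ 0 → finrank ℂ (rootSpace 𝔤 μ β) ≤ 1

end lin

section rep

variable {Γ : Type} [Group Γ] {ι : Type} {n : ι → ℕ} {ℓ : ℕ} [Fact ℓ.Prime] (ρ : Reps Γ n ℓ)
  (𝔤 : EndSpace n ℓ)

/-- Up to the centre, the elements of `𝔤` which commute with all Tate endomorphisms kill all Tate
tensors (see `IsGeneratedUpToCentre`). -/
def TateGeneratedUpToCentre : Prop := IsGeneratedUpToCentre (sumRep ρ) 𝔤

/-- The Tate conjecture for endomorphisms: `𝔤` commutes with all Tate endomorphisms. -/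
def TateForEndomorphisms : Prop := AllCommute (sumRep ρ) 𝔤

/-- The centre of `𝔤` kills the Tate tensors. -/
def CentreKillsTateTensors : Prop := CentreKillsAll (sumRep ρ) 𝔤

/-- The Tate tensors and the Tate endomorphisms: up to the centre `𝔤` is generated by Tate
endomorphisms, and the Tate tensors are those killed by `𝔤` if and only if this is true for the
endomorphisms and for the centre. -/
def DecidedByEndomorphisms : Prop :=
  TateGeneratedUpToCentre ρ 𝔤 ∧
    (TateTensorsOf ρ 𝔤 ↔ TateForEndomorphisms ρ 𝔤 ∧ CentreKillsTateTensors ρ 𝔤)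

/-- `L` is stable under the conjugations by all elements of `Γ`. -/
def Stable (L : EndSpace n ℓ) : Prop := IsStable (sumRep ρ) L

/-- `U` is the nilradical of a proper parabolic subalgebra of `𝔤` (see `IsParabolicRadical`). -/
def ParabolicRadical (U : EndSpace n ℓ) : Prop := IsParabolicRadical 𝔤 U

/-- `L ⊆ 𝔤` is stable under all automorphisms which stabilize `𝔤` and `U`. -/
def Characteristic (U L : EndSpace n ℓ) : Prop := IsCharacteristic 𝔤 U L

/-- An endomorphism of the sum of the spaces `ℚ_ℓ ^ (n i)`, with scalars extended to `ℂ`. -/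
def EndOver (n : ι → ℕ) (ℓ : ℕ) [Fact ℓ.Prime] [Algebra ℚ_[ℓ] ℂ] : Type :=
  End ℂ (ℂ ⊗[ℚ_[ℓ]] (∀ i, Fin (n i) → ℚ_[ℓ]))

variable [Algebra ℚ_[ℓ] ℂ]

/-- `μ` is in `𝔩 ⊗ ℂ`, where `𝔩` is the Lie algebra of all endomorphisms which kill all Tate tensors. -/
def InMonodromy (μ : EndOver n ℓ) : Prop := IsInMonodromy (sumRep ρ) μ

/-- `μ` has the properties of the Hodge-Tate endomorphism of `ρ` (see `IsHodgeTate`). -/
def HodgeTate (μ : EndOver n ℓ) : Prop := IsHodgeTate (sumRep ρ) μ

/-- `μ` is strongly regular for `𝔤`. -/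
def StronglyRegular (μ : EndOver n ℓ) : Prop :=
  IsStronglyRegular (V := ∀ i, Fin (n i) → ℚ_[ℓ]) 𝔤 μ

/-- `[μ, ·]` preserves `L ⊗ ℂ`, with trace zero. -/
def TraceZero (μ : EndOver n ℓ) (L : EndSpace n ℓ) : Prop :=
  HasTraceZero (V := ∀ i, Fin (n i) → ℚ_[ℓ]) μ L

/-- The nilradical of every proper parabolic subalgebra of `𝔤` has a characteristic subspace which `μ`
does not act on with trace zero. -/
def GeneralPosition (μ : EndOver n ℓ) : Prop :=
  ∀ U, ParabolicRadical 𝔤 U → ∃ L, Characteristic 𝔤 U L ∧ ¬ TraceZero μ L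

/-- The specialization given by `s` has good reduction at all primes `p` in `T`, with the Frobenius
polynomials `P`, and `T` has at least three elements, different from `ℓ`. -/
structure GoodSpecialization [TopologicalSpace Γ] (ρ : Reps Γ n ℓ)
    (s : Gal(AlgebraicClosure ℚ/ℚ) →* Γ) (w : ι → ℤ) (P : HeightOneSpectrum (𝓞 ℚ) → ι → ℚ[X])
    (T : Set ℕ) : Prop where
  cont : Continuous s
  three : 3 ≤ T.encard
  primes : ∀ p ∈ T, p.Prime ∧ p ≠ ℓ ∧ UnramifiedIn ℚ p
  good : ∀ p ∈ T, ∀ v, Above v p → ∀ i, GoodReduction (restrictTo ρ s) i (w i) v (P v i)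

end rep

section proofs

variable {Γ : Type} [Group Γ] [TopologicalSpace Γ] [IsTopologicalGroup Γ] [CompactSpace Γ]
    {ι : Type} [Fintype ι] [DecidableEq ι] {n : ι → ℕ} {ℓ : ℕ} [Fact ℓ.Prime]

theorem dich (ρ : Reps Γ n ℓ) (hρ : Conts ρ) (𝔤 : EndSpace n ℓ) (h𝔤 : Motivic ρ 𝔤)
    (h𝔤' : Stable ρ 𝔤) : Semisimple ρ ∨ ∃ U, Stable ρ U ∧ Contained U 𝔤 ∧
      ParabolicRadical 𝔤 U := by
  have h4 : ∀ γ, ∀ X ∈ (show Submodule ℚ_[ℓ] (End ℚ_[ℓ] (∀ i, Fin (n i) → ℚ_[ℓ])) from 𝔤),
      sumRep ρ γ * X * sumRep ρ γ⁻¹ ∈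
        (show Submodule ℚ_[ℓ] (End ℚ_[ℓ] (∀ i, Fin (n i) → ℚ_[ℓ])) from 𝔤) := by
    intro γ X hX
    rw [mul_assoc]
    exact h𝔤' γ X hX
  rcases dichotomy inputs inputs2 ρ hρ 𝔤 h𝔤 h4 with h1 | ⟨U, hU1, hU2, hU3, hU4⟩
  · exact Or.inl h1
  · refine Or.inr ⟨U, fun γ X hX => hU4 γ X hX, hU1, hU2, fun X => ?_⟩
    constructor
    · intro hX
      have h3 : X ∈ radOf (norm 𝔤 U) := by rw [hU3]; exact hX
      exact h3
    · intro hX
      have h3 : X ∈ radOf (norm 𝔤 U) := hX
      rwa [hU3] at h3

theorem detOn_congr' {k V : Type} [Field k] [AddCommGroup V] [Module k V]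
    {L : Submodule k (End k V)} {a b a' b' : End k V} (h : ∀ X ∈ L, AdE a b X ∈ L)
    (h' : ∀ X ∈ L, AdE a' b' X ∈ L) (h1 : a = a') (h2 : b = b') :
    detOn L (AdE a b) h = detOn L (AdE a' b') h' := by
  subst h1
  subst h2
  rfl

theorem carries_congr {k V : Type} [Field k] [AddCommGroup V] [Module k V]
    {L : Submodule k (End k V)} {a b a' b' : End k V} (h : Carries a b L) (h1 : a = a')
    (h2 : b = b') : Carries a' b' L := by
  subst h1
  subst h2
  exact h

theorem det_rat (ρ : Reps Γ n ℓ) (hρ : Conts ρ)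
    (𝔤 : EndSpace n ℓ) (h𝔤 : Motivic ρ 𝔤)
    {s : Gal(AlgebraicClosure ℚ/ℚ) →* Γ} {w : ι → ℤ} {P : HeightOneSpectrum (𝓞 ℚ) → ι → ℚ[X]}
    {T : Set ℕ} (hs : GoodSpecialization ρ s w P T) {L : EndSpace n ℓ} (hL : Stable ρ L)
    (hLG : Contained L 𝔤) : ∃ hL' : IsStable (sumRep (restrictTo ρ s)) L, DetFiniteOrder _ hL' := by
  obtain ⟨m, hm, h1⟩ := det_fin (w := w) inputs inputs2 ρ hρ s hs.cont 𝔤 h𝔤 P T hs.three
    hs.primes (fun p hp v hv => goodPlace_of (restrictTo ρ s) (hs.good p hp v hv)) (L := L) hLG hL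
  have hinv : ∀ τ, sumRep ρ (s τ)⁻¹ = sumRep (restrictTo ρ s) τ⁻¹ := by
    intro τ
    rw [← map_inv]
    rfl
  have hL' : IsStable (sumRep (restrictTo ρ s)) L := fun τ =>
    carries_congr (hL (s τ)) rfl (hinv τ)
  refine ⟨hL', m, hm, fun τ => ?_⟩
  have h2 := detOn_congr' (hL (s τ)) (hL' τ) rfl (hinv τ)
  exact (congrArg (fun x => x ^ m) h2.symm).trans (h1 τ)

/-- The Lie algebra `𝔩` of the specialization is contained in that of `ρ`. -/
theorem mono_restrict (ρ : Reps Γ n ℓ) (s : Gal(AlgebraicClosure ℚ/ℚ) →* Γ)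
    {X : End ℚ_[ℓ] (∀ i, Fin (n i) → ℚ_[ℓ])} (hX : KillsAll (sumRep (restrictTo ρ s)) X) :
    KillsAll (sumRep ρ) X := by
  rintro m φ ⟨Δ, hΔ, h⟩
  refine hX m φ ⟨Δ.comap s, finiteIndex_comap s hΔ, fun γ hγ v => ?_⟩
  have h1 := h (s γ) hγ v
  have hinv : sumRep ρ (s γ)⁻¹ = sumRep (restrictTo ρ s) γ⁻¹ := by
    rw [← map_inv]
    rfl
  rw [hinv] at h1
  exact h1

variable [Algebra ℚ_[ℓ] ℂ]

/-- Part (1). -/
theorem part_one (ρ : Reps Γ n ℓ) (hρ : Conts ρ) (𝔤 : EndSpace n ℓ) (h𝔤 : Motivic ρ 𝔤)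
    (hss : Semisimple ρ) (μ : EndOver n ℓ) (hμ : InMonodromy ρ μ) (hreg : StronglyRegular 𝔤 μ) :
    DecidedByEndomorphisms ρ 𝔤 := by
  obtain ⟨L, hL, hLie, hAd, -⟩ :=
    inputs.lie ℚ_[ℓ] (∀ i, Fin (n i) → ℚ_[ℓ]) _ (sumRep ρ)
  have hLG : L ≤ 𝔤 := fun X hX =>
    IsMotivic.algebraic h𝔤 X fun m φ hφ => ((hL X).1 hX).2 m φ (IsMotivic.tate h𝔤 m φ hφ)
  obtain ⟨hcl, hND⟩ := nonDeg_L (sumRep ρ) hss hL hLie hAd
  have hμL : μ ∈ bcS ℂ L := by
    obtain ⟨𝔩, h1, h2⟩ := hμ
    exact bcS_mono (fun X hX => (hL X).2 (mem_LT_of_semisimple (sumRep ρ) hss ((h1 X).1 hX))) h2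
  have hmain := local_main_add inputs inputs2 hcl hND hLie (IsMotivic.bracket h𝔤)
    (IsMotivic.algebraic h𝔤) hLG hμL ⟨hreg.torus, hreg.simple⟩
  obtain ⟨Δ', hΔ', hcomm⟩ := inputs2.tfr ℓ ι n _ ρ hρ (comm L) (comm_conj (sumRep ρ) hAd)
    (comm_order (sumRep ρ) inputs inputs2 hL)
  have hc1 : ∀ X, CommutesWithTate (sumRep ρ) X → ∀ Y ∈ comm L, X * Y = Y * X := fun X hX Y hY =>
    hX Y ⟨Δ', hΔ', fun γ hγ => (hcomm γ hγ Y hY).symm⟩
  have hc2 : ∀ X, (∀ Y ∈ comm L, X * Y = Y * X) → CommutesWithTate (sumRep ρ) X := by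
    rintro X hX Y ⟨Δ, hΔ, hY⟩
    exact hX Y fun Z hZ => tate_comm (sumRep ρ) ((hL Z).1 hZ).2 hΔ hY
  refine ⟨fun X hX hXc => ?_, fun h => ⟨?_, fun Z hZ _ m φ hφ => (h m φ).1 hφ Z hZ⟩, ?_⟩
  · obtain ⟨x, hx, z, hz, rfl⟩ := hmain X ⟨hX, hc1 X hXc⟩
    refine ⟨z, hz.1.1, hc2 z hz.1.2, fun Y hY hYc => hz.2 Y ⟨hY, hc1 Y hYc⟩, ?_⟩
    rw [add_sub_cancel_right]
    exact ((hL x).1 hx).2
  · rintro X hX Y ⟨Δ, hΔ, hY⟩
    exact tate_comm (sumRep ρ) (fun m φ hφ => (h m φ).1 hφ X hX) hΔ hY
  · rintro ⟨hE, hC⟩ m φ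
    refine ⟨fun hφ X hX => ?_, IsMotivic.tate h𝔤 m φ⟩
    obtain ⟨x, hx, z, hz, rfl⟩ := hmain X ⟨hX, hc1 X (hE X hX)⟩
    have h1 := ((hL x).1 hx).2 m φ hφ
    have h2 := hC z hz.1.1 (fun Y hY => hz.2 Y ⟨hY, hc1 Y (hE Y hY)⟩) m φ hφ
    intro v
    have h3 : ∀ l, φ (Function.update v l (lie (x + z) (v l))) =
        φ (Function.update v l (lie x (v l))) + φ (Function.update v l (lie z (v l))) := by
      intro l
      have h4 : lie (x + z) = lie x + lie z :=
        map_add (Pool.Agent.Y914.RM.lieL ℚ_[ℓ] (∀ i, Fin (n i) → ℚ_[ℓ])) x z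
      rw [h4, LinearMap.add_apply, MultilinearMap.map_update_add]
    rw [Finset.sum_congr rfl fun l _ => h3 l, Finset.sum_add_distrib, h1 v, h2 v, add_zero]

end proofs

theorem result {Γ : Type} [Group Γ] [TopologicalSpace Γ] [IsTopologicalGroup Γ] [CompactSpace Γ]
    {ι : Type} [Fintype ι] [DecidableEq ι] {n : ι → ℕ} {ℓ : ℕ} [Fact ℓ.Prime]
    -- `ℂ` as an extension of `ℚ_ℓ`
    [Algebra ℚ_[ℓ] ℂ]
    -- the `ℓ`-adic realizations, and the Lie algebra of the motivic Galois group
    (ρ : Reps Γ n ℓ) (hρ : Conts ρ) (𝔤 : EndSpace n ℓ) (h𝔤 : Motivic ρ 𝔤) :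
    -- (1) any base field
    (Semisimple ρ → ∀ μ : EndOver n ℓ, InMonodromy ρ μ → StronglyRegular 𝔤 μ →
      DecidedByEndomorphisms ρ 𝔤) ∧
    -- (2) the rational numbers, or a rational point
    (Stable ρ 𝔤 →
      ∀ (s : Gal(AlgebraicClosure ℚ/ℚ) →* Γ) (w : ι → ℤ) (P : HeightOneSpectrum (𝓞 ℚ) → ι → ℚ[X])
        (T : Set ℕ), GoodSpecialization ρ s w P T →
      ∀ μ : EndOver n ℓ, HodgeTate (restrictTo ρ s) μ → GeneralPosition 𝔤 μ →
        Semisimple ρ ∧ (StronglyRegular 𝔤 μ → DecidedByEndomorphisms ρ 𝔤)) := by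
  refine ⟨fun hss μ hμ hreg => part_one ρ hρ 𝔤 h𝔤 hss μ hμ hreg, ?_⟩
  intro h𝔤' s w P T hs μ hμ hpos
  have hss : Semisimple ρ := by
    rcases dich ρ hρ 𝔤 h𝔤 h𝔤' with h2 | ⟨U, hU, hUG, hUP⟩
    · exact h2
    · obtain ⟨L, hL, hLt⟩ := hpos U hUP
      have hinv : ∀ {M : EndSpace n ℓ}, Stable ρ M → ∀ γ,
          Carries (V := ∀ i, Fin (n i) → ℚ_[ℓ]) (sumRep ρ γ⁻¹) (sumRep ρ γ) M := fun hM γ =>
        carries_congr (hM γ⁻¹) rfl (by rw [inv_inv])
      have hLs : Stable ρ L := fun γ => hL.2 _ _ (by rw [← map_mul, mul_inv_cancel, map_one])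
        (by rw [← map_mul, inv_mul_cancel, map_one]) (h𝔤' γ) (hinv h𝔤' γ) (hU γ) (hinv hU γ)
      obtain ⟨h3, h4⟩ := det_rat ρ hρ 𝔤 h𝔤 hs hLs hL.1
      exact absurd (hμ.trace L h3 h4) hLt
  refine ⟨hss, fun hreg => part_one ρ hρ 𝔤 h𝔤 hss μ ?_ hreg⟩
  obtain ⟨𝔩, h1, h2⟩ := hμ.mem
  obtain ⟨L, hL, hLie, hAd, -⟩ :=
    inputs.lie ℚ_[ℓ] (∀ i, Fin (n i) → ℚ_[ℓ]) _ (sumRep ρ)
  refine ⟨L, fun X => ⟨fun hX => ((hL X).1 hX).2, fun hX =>
    (hL X).2 (mem_LT_of_semisimple (sumRep ρ) hss hX)⟩, ?_⟩
  exact bcS_mono (fun X hX => (hL X).2 (mem_LT_of_semisimple (sumRep ρ) hss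
    (mono_restrict ρ s ((h1 X).1 hX)))) h2

end Pool.Agent.Results.MP_938ce2_ag.RegularHodgeCocharacter
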