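import Pool.Agent.H857.NF.Master
import Pool.Agent.H857.NF.Cycle

/-!
# MP_938ce2_ag: the Tate conjecture over number fields for `A ^ n × Y`, for arbitrary varieties
`Y` and all abelian varieties `A` with one Frobenius polynomial outside of a set of the exact
order of magnitude of its size

Let `g i` (`i` in a finite set `I`) be positive integers. For a prime power `q = p ^ a` let
`families g p a` be the finite set of the families `f i` of Weil polynomials of degrees `2 g i`
relative to `q` with integral Newton polygons. It contains the families of the characteristic
polynomials of the Frobenius endomorphisms of abelian varieties of dimensions `g i` over the field
with `q` elements (Weil). It has about `q ^ (∑ g i (g i + 1) / 4)` elements.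

Let the `ρ k` be `r` Weil numbers of weights less than `c` with slopes in `(1 / D) ℤ`, for
instance the eigenvalues of the Frobenius element of a place with residue field of `q` elements on
the cohomology of a smooth projective variety with good reduction at this place. The family `f` is
exceptional if there is a multiplicative relation between roots of the `f i`, the numbers `ρ k`
and `q`, up to roots of unity, which does not come from the pairs of conjugate roots `z`, `q / z`,
or if the product of the `f i` has multiple factors (`exceptional`).

1. The proportion of the exceptional families among all the families is of the exact order of
magnitude `∑ q ^ (- δ (g i) / 2)`, where `δ (g) = g` for `g ≠ 2` and `δ (2) = 1`: it is at most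
`C` times, and at least `1 / C` times this sum. The constant `C` depends only on the `g i`, on
`r`, `c` and `D` - not on `p`, `q` and the `ρ k`.

2. Let `f` be a family which is not exceptional. Let `A` be an abelian variety over a number field
`K` with good reduction at ONE place `v` with residue field of `q` elements, such that the
characteristic polynomial of the Frobenius element of `v` is the product of the `f i`. Let `Y` be
ANY smooth projective variety over `K` such that the eigenvalues of this Frobenius element on the
`ℓ`-adic cohomology of `Y` lie, up to powers, in the group generated by the `ρ k` and `q`. Then
for all `n` and `j` **the Tate conjecture (every Tate class is a linear combination of classes of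
algebraic cycles over the algebraic closure) holds for `A ^ n × Y` in codimension `j` if and only
if it holds for `Y` in the codimensions `j - m`, `0 ≤ m ≤ dim A ^ n`** (`TateReduces`). If `Y` is
a point this is the Tate conjecture for all powers of `A`.

What is used of `A` (`IsTateModule`): `V = V_ℓ(A)` is a semisimple representation of all subgroups
of finite index (Faltings, Zarhin), it has the Weil pairing of a polarization, and the
characteristic polynomial of the Frobenius element `γ` of the ONE place `v` is the product of the
`f i`. Nothing is assumed on the dimension and the endomorphisms of `A`, its Mumford-Tate group,
or on other places. The cohomology of `A ^ n × Y` is given by the formula of Kunneth in terms of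
alternating maps from `V ^ n` to the cohomology of `Y` (`CycleData`). What is used of cycles are
known facts (`IsCycleData`): Tate classes of degree two on `A ^ n` are combinations of divisor
classes (Faltings, Zarhin), products of cycles, and the push-forward to `Y` after the intersection
with powers of an ample divisor. Nothing is assumed on the semisimplicity of the cohomology of
`Y`.

The proof. The upper bound for the relations and the lower bound are the ones of
MP_557161_ag.SharpExceptionalSet (relations are eliminated over the finite fields and with Fourier
analysis on the group of the roots; nothing about abelian varieties is used); the discriminant of
the product of the `f i` and the resultants are polynomials in the traces which do not vanish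
identically on the fibres, which bounds the number of the families with multiple roots. If `f` is
not exceptional then the fields generated by the roots are CM fields, the angle rank is maximal
and the component of a Tate class in an eigenspace of `γ` belongs to a product of pairs of
conjugate roots; the Lie algebra of the endomorphisms of `V` which kill the Tate classes is over a
finite extension a product of symplectic and general linear Lie algebras, and the first
fundamental theorem of invariant theory gives the result (`EV.split_of_forces` in the library).
-/

set_option autoImplicit false

namespace Pool.Agent.Results.MP_938ce2_ag.SharpExceptionalSet

open Pool.Agent.H857.SX Pool.Agent.H857.NF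

/-- **The exceptional set.** -/
theorem result {I : Type} [Fintype I] (g : I → ℕ) (hg : ∀ i, 0 < g i) (r D c : ℕ) (hD : 0 < D) :
    ∃ C : ℝ, 0 < C ∧ ∀ (p : ℕ) [Fact p.Prime] (a : ℕ), 0 < a →
      ((families g p a).Finite ∧
        ∏ i, Real.sqrt ((p : ℝ) ^ a) ^ (g i * (g i + 1) / 2) ≤ C * (families g p a).ncard ∧
        (families g p a).ncard ≤ C * ∏ i, Real.sqrt ((p : ℝ) ^ a) ^ (g i * (g i + 1) / 2)) ∧
      ∀ (w : Fin r → ℕ) (ρ : Fin r → ℂ), (∀ k, w k < c ∧ IsWeilNumber p a D (w k) (ρ k)) →
        (((exceptional g p a ρ).ncard : ℝ) ≤
            C * (rate g ((p : ℝ) ^ a) * (families g p a).ncard) ∧
          rate g ((p : ℝ) ^ a) * (families g p a).ncard ≤ C * (exceptional g p a ρ).ncard) ∧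
        ∀ f ∈ families g p a, f ∉ exceptional g p a ρ →
          TateReduces (Generated (p ^ a) ρ) (p ^ a) f :=
  master g hg r D c hD (fun q f R => TateReduces R q f)
    fun _ _ _ hq hw h0 hR hN hS => tateReduces (by omega) hR hS

end Pool.Agent.Results.MP_938ce2_ag.SharpExceptionalSet
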